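import Pool.Agent.Mg.F1c0fc2.G5d87df

namespace Pool.Agent.Results.MP_1c0fc2_co.ConnectedIsolated

open Pool.Agent.MP_1c0fc2_co

theorem result {α β : Type} [Finite α] [Finite β] (H₁ : SimpleGraph α) (H₂ : SimpleGraph β)
    (h₁ : H₁.Connected) (h₂ : H₂.Connected)
    (h : ∀ (V : Type) [Finite V] (G : SimpleGraph V), Arrows G H₁ ↔ Arrows G H₂) :
    Nonempty (H₁ ≃g H₂) :=
  RE.all_final α β H₁ H₂ h₁ h₂ h

end Pool.Agent.Results.MP_1c0fc2_co.ConnectedIsolated
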