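import Pool.Agent.MP_1c0fc2_co.Partner

namespace Pool.Agent.Results.MP_1c0fc2_co.DisconnectedPartner

open Pool.Agent.MP_1c0fc2_co

theorem result {α β : Type} [Finite α] [Finite β] (H : SimpleGraph α) (H' : SimpleGraph β)
    (hH : H.Connected) (hH' : ¬ H'.Connected)
    (h : ∀ (V : Type) [Finite V] (G : SimpleGraph V), Arrows G H ↔ Arrows G H') :
    ∃ (γ : Type) (F : SimpleGraph γ), Nonempty (H' ≃g H.sum F) ∧ ¬ H.IsContained F :=
  partner H H' hH hH' h

end Pool.Agent.Results.MP_1c0fc2_co.DisconnectedPartner
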